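import Pool.Agent.K7.H13.KX.Quant2
import Pool.Agent.H499R2.NDWord

set_option autoImplicit false

/-! The excursions of the integer parts of the multiples of a lacunary sequence by almost every real
number. -/

namespace Pool.Agent.Results.MP_0a5adf_nt.AlmostEverySequence

open Filter Topology MeasureTheory

/-- the accelerated `3x+1` map -/
def T (n : ℕ) : ℕ := if n % 2 = 0 then n / 2 else (3 * n + 1) / 2

/-- words `w` of length `K` over `{0,1}` with `3^(w_0+...+w_(k-1)) / 2^k < lam` for `1 ≤ k ≤ K` -/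
def safeWords (K : ℕ) (lam : ℝ) : Set (Fin K → Fin 2) :=
  {w | ∀ k, 1 ≤ k → k ≤ K →
    (3 : ℝ) ^ (∑ i ∈ Finset.univ.filter (fun i : Fin K => (i : ℕ) < k), (w i : ℕ)) < lam * 2 ^ k}

/-- the trajectory of `x` does not exceed `lam * x` before it reaches a value `≤ x^θ` -/
def Stays (lam θ : ℝ) (x : ℕ) : Prop :=
  ∀ k, (∀ j ≤ k, (x : ℝ) ^ θ < (T^[j] x : ℕ)) → ((T^[k] x : ℕ) : ℝ) ≤ lam * x

/-- `l` is a lacunary sequence of positive real numbers -/
def Lacunary (l : ℕ → ℝ) : Prop := 0 < l 0 ∧ ∃ c : ℝ, 1 < c ∧ ∀ n, c * l n ≤ l (n + 1)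

/-- the number of the `n < N` with the property `P` -/
noncomputable def count (P : ℕ → Prop) (N : ℕ) : ℝ := ({n : ℕ | n < N ∧ P n}.ncard : ℝ)

theorem T_eq : T = Pool.Agent.Helper894.Collatz.T := rfl

theorem count_eq (P : ℕ → Prop) (N : ℕ) : count P N = Pool.Agent.K7.H13.KX.cnt P N := by
  classical
  unfold count Pool.Agent.K7.H13.KX.cnt
  have : {n : ℕ | n < N ∧ P n} = (((Finset.range N).filter P : Finset ℕ) : Set ℕ) := by
    ext n
    rw [Finset.coe_filter]
    simp only [Set.mem_ofPred_eq, Finset.mem_range]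
  rw [this, Set.ncard_coe_finset]

theorem count_not (P : ℕ → Prop) (N : ℕ) : count P N + count (fun n => ¬ P n) N = N := by
  classical
  unfold count
  have h1 : {n : ℕ | n < N ∧ P n} = (((Finset.range N).filter P : Finset ℕ) : Set ℕ) := by
    ext n
    rw [Finset.coe_filter]
    simp only [Set.mem_ofPred_eq, Finset.mem_range]
  have h2 : {n : ℕ | n < N ∧ ¬ P n} = (((Finset.range N).filter (fun n => ¬ P n) : Finset ℕ) : Set ℕ) := by
    ext n
    rw [Finset.coe_filter]
    simp only [Set.mem_ofPred_eq, Finset.mem_range]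
  rw [h1, h2, Set.ncard_coe_finset, Set.ncard_coe_finset]
  have := Finset.card_filter_add_card_filter_not (s := Finset.range N) P
  rw [Finset.card_range] at this
  exact_mod_cast this

open Pool.Agent.K7.H13.KX in
theorem stays_iff (l : ℕ → ℝ) (lam θ α : ℝ) (n : ℕ) : ¬ Stays lam θ ⌊l n * α⌋₊ ↔ ex l lam θ α n := by
  unfold Stays ex Pool.Agent.W36.SL.Exc xn
  rw [T_eq]
  push Not
  constructor
  · rintro ⟨k, h1, h2⟩
    exact ⟨k, h2, h1⟩
  · rintro ⟨k, h1, h2⟩
    exact ⟨k, h2, h1⟩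

open Pool.Agent.H499R2.ND Pool.Agent.W36.SL in
theorem s_eq {lam : ℝ} (hl : 1 < lam) (K : ℕ) : s K lam = ((safeWords K lam).ncard : ℝ) / 2 ^ K := by
  classical
  have h1 : rK K lam = ((safeWords K lam).ncard : ℝ) / 2 ^ K := rK_words K lam
  rw [← h1]
  have h2 := card_PP K lam
  have h3 : ∀ n, ¬ Pool.Agent.H828R3.Exc.PP lam K n ↔ AK K lam n := by
    intro n
    unfold Pool.Agent.H828R3.Exc.PP AK
    push Not
    constructor
    · intro h k _ hk2
      exact h k hk2
    · intro h k hk2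
      rcases Nat.eq_zero_or_pos k with h0 | h0
      · subst h0
        simpa [Pool.Agent.Helper894.Collatz.od] using hl
      · exact h k h0 hk2
  have h4 := Finset.card_filter_add_card_filter_not (s := Finset.range (2 ^ K))
    (fun n => Pool.Agent.H828R3.Exc.PP lam K n)
  rw [Finset.card_range] at h4
  have h5 : (((Finset.range (2 ^ K)).filter (fun n => Pool.Agent.H828R3.Exc.PP lam K n)).card : ℝ) +
      (((Finset.range (2 ^ K)).filter (fun n => ¬ Pool.Agent.H828R3.Exc.PP lam K n)).card : ℝ) = 2 ^ K := by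
    exact_mod_cast h4
  have h6 : (Finset.range (2 ^ K)).filter (fun n => ¬ Pool.Agent.H828R3.Exc.PP lam K n) =
      (Finset.range (2 ^ K)).filter (AK K lam) := Finset.filter_congr fun n _ => h3 n
  rw [h6, h2] at h5
  unfold rK
  rw [eq_div_iff (by positivity)]
  have h7 : (((Finset.range (2 ^ K)).filter (AK K lam)).card : ℝ) = s K lam * 2 ^ K := by linarith
  rw [← h7]

/-- EXCURSIONS ALONG THE MULTIPLES OF A LACUNARY SEQUENCE BY ALMOST EVERY NUMBER. For `lam > 1` let
`q lam` be the limit of the proportion of the safe words of length `K`, and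
`C = (∫_1^2 q) / log (27/16) > 0`. Let `l` be any lacunary sequence of positive real numbers, and for
a real number `α > 0` let `x_n = ⌊l_n α⌋`.
(1) For almost every `α`, for all `0 < θ < 1` and all `lam > 1`, the proportion of the `n < N` for
which the trajectory of `x_n` does not exceed `lam * x_n` before it reaches a value `≤ x_n^θ` tends
to `q lam`.
Let `ψ n ≥ 1`.
(2) If `∑ 1/ψ n` converges then for almost every `α` and all `θ > 0`, for all large `n`, the trajectory
of `x_n` does not exceed `ψ n * x_n` before it reaches a value `≤ x_n^θ`.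
(3) If `∑ 1/ψ n` diverges then for almost every `α` and all `θ < 1` the trajectory of `x_n` exceeds
`ψ n * x_n` before it reaches a value `≤ x_n^θ` for infinitely many `n`.
(4) If moreover `ψ n → ∞` then, for almost every `α` and all `0 < θ < 1`, the number of these
`n < N` is `(C + o(1)) ∑_{n<N} 1/ψ n`. -/
theorem result : ∃ (q : ℝ → ℝ) (C : ℝ),
    (∀ lam : ℝ, 1 < lam → 1 - 1 / lam ≤ q lam ∧
      Tendsto (fun K : ℕ => ((safeWords K lam).ncard : ℝ) / 2 ^ K) atTop (𝓝 (q lam))) ∧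
    0 < C ∧ C = (∫ t in (1 : ℝ)..2, q t) / Real.log (27 / 16) ∧
    ∀ l : ℕ → ℝ, Lacunary l →
      (∀ᵐ α : ℝ, 0 < α → ∀ θ lam : ℝ, 0 < θ → θ < 1 → 1 < lam →
        Tendsto (fun N : ℕ => count (fun n => Stays lam θ ⌊l n * α⌋₊) N / N) atTop (𝓝 (q lam))) ∧
      ∀ ψ : ℕ → ℝ, (∀ n, 1 ≤ ψ n) →
        ((Summable fun n => 1 / ψ n) → ∀ᵐ α : ℝ, 0 < α → ∀ θ : ℝ, 0 < θ →
          ∀ᶠ n in atTop, Stays (ψ n) θ ⌊l n * α⌋₊) ∧
        ((¬ Summable fun n => 1 / ψ n) → ∀ᵐ α : ℝ, 0 < α → ∀ θ : ℝ, θ < 1 →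
          ∃ᶠ n in atTop, ¬ Stays (ψ n) θ ⌊l n * α⌋₊) ∧
        ((¬ Summable fun n => 1 / ψ n) → Tendsto ψ atTop atTop → ∀ᵐ α : ℝ, 0 < α → ∀ θ : ℝ,
          0 < θ → θ < 1 → Tendsto (fun N : ℕ => count (fun n => ¬ Stays (ψ n) θ ⌊l n * α⌋₊) N /
            ∑ n ∈ Finset.range N, 1 / ψ n) atTop (𝓝 C)) := by
  refine ⟨Pool.Agent.W36.SL.q, Pool.Agent.W36.SL.C, ?_, Pool.Agent.W36.SL.C_pos, rfl, ?_⟩
  · intro lam hlam
    refine ⟨Pool.Agent.W36.SL.q_ge (by linarith), ?_⟩
    exact (Pool.Agent.W36.SL.s_tendsto lam).congr fun K => s_eq hlam K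
  · rintro l ⟨h0, c, hc, hstep⟩
    have hl : Pool.Agent.K7.H13.KX.Lac l c := ⟨h0, hc, hstep⟩
    refine ⟨?_, fun ψ hψ => ⟨fun hs => ?_, fun hs => ?_, fun hs hψt => ?_⟩⟩
    · filter_upwards [Pool.Agent.K7.H13.KX.ae_pos
        fun a h ha hh => Pool.Agent.K7.H13.KX.law_all hl ha hh] with α hα h1 θ lam hθ0 hθ1 hlam
      have h2 := (hα h1 θ hθ0 hθ1 lam hlam).const_sub 1
      have e : 1 - Pool.Agent.W36.SL.p lam = Pool.Agent.W36.SL.q lam := by
        unfold Pool.Agent.W36.SL.p; ring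
      rw [e] at h2
      refine h2.congr' ?_
      filter_upwards [eventually_ge_atTop 1] with N hN
      have hN0 : (0 : ℝ) < N := by exact_mod_cast hN
      have h3 := count_not (fun n => Stays lam θ ⌊l n * α⌋₊) N
      have h4 : count (fun n => ¬ Stays lam θ ⌊l n * α⌋₊) N =
          Pool.Agent.K7.H13.KX.cnt (Pool.Agent.K7.H13.KX.ex l lam θ α) N := by
        rw [count_eq]
        congr 1
        funext n
        exact propext (stays_iff l lam θ α n)
      rw [h4] at h3
      have h5 : count (fun n => Stays lam θ ⌊l n * α⌋₊) N =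
          N - Pool.Agent.K7.H13.KX.cnt (Pool.Agent.K7.H13.KX.ex l lam θ α) N := by linarith
      rw [h5, sub_div, div_self hN0.ne']
    · filter_upwards [Pool.Agent.K7.H13.KX.conv hl hψ hs] with α hα h1 θ hθ
      filter_upwards [hα h1 θ hθ] with n hn
      by_contra hcon
      exact hn ((stays_iff l (ψ n) θ α n).1 hcon)
    · filter_upwards [Pool.Agent.K7.H13.KX.diverg hl hψ hs] with α hα h1 θ hθ
      exact (hα h1 θ hθ).mono fun n hn => (stays_iff l (ψ n) θ α n).2 hn
    · filter_upwards [Pool.Agent.K7.H13.KX.quant hl hψ hψt hs] with α hα h1 θ hθ0 hθ1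
      refine (hα h1 θ hθ0 hθ1).congr fun N => ?_
      rw [count_eq]
      congr 2
      funext n
      exact (propext (stays_iff l (ψ n) θ α n)).symm

end Pool.Agent.Results.MP_0a5adf_nt.AlmostEverySequence
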