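import Mathlib

set_option autoImplicit false

/-!
# Excursions larger than those of the Mersenne numbers

The initial run of odd steps of `2 ^ k - 1` gives `t(n) ≥ n ^ (log 3 / log 2)` for infinitely many `n`.
Here a second run of odd steps is produced for `n = 5 * 2 ^ k - 1` with suitable `k`, which gives a
further factor `(log n) ^ (log (3 / 2) / log 2)`.
-/

namespace Pool.Agent.Results.MP_0a5adf_nt.BeyondMersenne

/-- the accelerated `3x+1` map -/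
def T (n : ℕ) : ℕ := if n % 2 = 0 then n / 2 else (3 * n + 1) / 2

theorem T_run (k m : ℕ) (hm : 1 ≤ m) : T^[k] (2 ^ k * m - 1) = 3 ^ k * m - 1 := by
  induction k generalizing m with
  | zero => simp
  | succ k ih =>
    rw [Function.iterate_succ_apply]
    have h1 : 1 ≤ 2 ^ k * m := Nat.one_le_iff_ne_zero.2 (by positivity)
    have e : 2 ^ (k + 1) * m = 2 * (2 ^ k * m) := by ring
    have h2 : T (2 ^ (k + 1) * m - 1) = 2 ^ k * (3 * m) - 1 := by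
      rw [e]
      unfold T
      rw [if_neg (by omega)]
      have e2 : 2 ^ k * (3 * m) = 3 * (2 ^ k * m) := by ring
      rw [e2]
      omega
    rw [h2, ih (3 * m) (by omega)]
    congr 1
    ring

/-- `3 ^ (2 ^ (j + 1)) ≡ 1 + 2 ^ (j + 3)` modulo `2 ^ (j + 4)` -/
theorem three_pow (j : ℕ) : ∃ q : ℕ, 3 ^ 2 ^ (j + 1) = 1 + 2 ^ (j + 3) * (2 * q + 1) := by
  induction j with
  | zero => exact ⟨0, by norm_num⟩
  | succ j ih =>
    obtain ⟨q, hq⟩ := ih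
    refine ⟨q + 2 ^ (j + 1) * (2 * q + 1) ^ 2, ?_⟩
    rw [pow_succ 2 (j + 1), pow_mul, hq]
    ring

theorem exists_k0 (j : ℕ) : ∃ k, 2 ^ (j + 3) ∣ 5 * 3 ^ k + 1 := by
  induction j with
  | zero => exact ⟨1, by norm_num⟩
  | succ j ih =>
    obtain ⟨k, m, hm⟩ := ih
    rcases Nat.even_or_odd' m with ⟨r, hr | hr⟩
    · exact ⟨k, r, by rw [hm, hr]; ring⟩
    · obtain ⟨q, hq⟩ := three_pow j
      obtain ⟨s, hs⟩ : ∃ s, 5 * 3 ^ k = 2 * s + 1 := by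
        have : Odd (5 * 3 ^ k) := (by decide : Odd 5).mul ((by decide : Odd 3).pow)
        exact this
      refine ⟨k + 2 ^ (j + 1), r + (2 * q * s + q + s) + 1, ?_⟩
      rw [pow_add, hq]
      have h1 : 5 * (3 ^ k * (1 + 2 ^ (j + 3) * (2 * q + 1))) + 1 =
          (5 * 3 ^ k + 1) + (5 * 3 ^ k) * (2 ^ (j + 3) * (2 * q + 1)) := by ring
      rw [h1, hm, hs, hr]
      ring

theorem exists_k (j : ℕ) : ∃ k, 2 ^ (j + 1) ≤ k ∧ k < 2 ^ (j + 2) ∧ 2 ^ (j + 3) ∣ 5 * 3 ^ k + 1 := by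
  obtain ⟨k0, hk0⟩ := exists_k0 j
  obtain ⟨q, hq⟩ := three_pow j
  have hpos : 0 < 2 ^ (j + 1) := by positivity
  refine ⟨k0 % 2 ^ (j + 1) + 2 ^ (j + 1), by omega, ?_, ?_⟩
  · have := Nat.mod_lt k0 hpos
    have e : 2 ^ (j + 2) = 2 * 2 ^ (j + 1) := by ring
    omega
  · have h1 : 3 ^ 2 ^ (j + 1) ≡ 1 [MOD 2 ^ (j + 3)] := by
      rw [hq]
      have : 1 + 2 ^ (j + 3) * (2 * q + 1) ≡ 1 + 0 [MOD 2 ^ (j + 3)] :=
        Nat.ModEq.add_left 1 ((Nat.modEq_zero_iff_dvd).2 (Dvd.intro _ rfl))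
      rwa [add_zero] at this
    have h2 : 3 ^ k0 ≡ 3 ^ (k0 % 2 ^ (j + 1)) [MOD 2 ^ (j + 3)] := by
      conv_lhs => rw [← Nat.div_add_mod k0 (2 ^ (j + 1))]
      rw [pow_add 3 (2 ^ (j + 1) * (k0 / 2 ^ (j + 1))), pow_mul 3]
      have h3 := (h1.pow (k0 / 2 ^ (j + 1))).mul_right (3 ^ (k0 % 2 ^ (j + 1)))
      simpa using h3
    have h3 : 3 ^ (k0 % 2 ^ (j + 1) + 2 ^ (j + 1)) ≡ 3 ^ k0 [MOD 2 ^ (j + 3)] := by
      rw [pow_add 3 (k0 % 2 ^ (j + 1))]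
      have := (h2.symm).mul h1
      rwa [mul_one] at this
    have h4 : 5 * 3 ^ (k0 % 2 ^ (j + 1) + 2 ^ (j + 1)) + 1 ≡ 5 * 3 ^ k0 + 1 [MOD 2 ^ (j + 3)] :=
      (h3.mul_left 5).add_right 1
    exact (h4.dvd_iff dvd_rfl).2 hk0

/-- two runs of odd steps -/
theorem two_runs (j k m : ℕ) (hk : 5 * 3 ^ k + 1 = 2 ^ (j + 3) * m) :
    T^[k + 1 + (j + 2)] (5 * 2 ^ k - 1) = 3 ^ (j + 2) * m - 1 := by
  have hm : 1 ≤ m := by
    rcases Nat.eq_zero_or_pos m with h | h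
    · rw [h, mul_zero] at hk
      omega
    · exact h
  have e1 : 5 * 2 ^ k = 2 ^ k * 5 := by ring
  rw [show k + 1 + (j + 2) = (j + 2) + (1 + k) by ring, Function.iterate_add_apply T (j + 2) (1 + k),
    Function.iterate_add_apply T 1 k, e1, T_run k 5 (by norm_num)]
  have h2 : T^[1] (3 ^ k * 5 - 1) = 2 ^ (j + 2) * m - 1 := by
    rw [Function.iterate_one]
    have e2 : 3 ^ k * 5 = 5 * 3 ^ k := by ring
    have e3 : 2 ^ (j + 3) * m = 2 * (2 ^ (j + 2) * m) := by ring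
    have h1 : 1 ≤ 2 ^ (j + 2) * m := Nat.one_le_iff_ne_zero.2 (by positivity)
    rw [e2]
    rw [e3] at hk
    unfold T
    rw [if_pos (by omega)]
    omega
  rw [h2, T_run _ _ hm]

/-- For infinitely many `n` the trajectory of `n` reaches a value larger than
`(4 / 243) n ^ (log 3 / log 2) (log n) ^ (log (3 / 2) / log 2)`. -/
theorem result : ∀ N : ℕ, ∃ n ≥ N, ∃ i : ℕ,
    4 / 243 * ((n : ℝ) ^ Real.logb 2 3 * (Real.log n) ^ Real.logb 2 (3 / 2)) < T^[i] n := by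
  intro N
  obtain ⟨k, hk1, hk2, m, hm⟩ := exists_k N
  have hkN : N ≤ k := by
    have h1 : N < 2 ^ N := Nat.lt_two_pow_self
    have h2 : 2 ^ N ≤ 2 ^ (N + 1) := Nat.pow_le_pow_right (by norm_num) (by omega)
    omega
  have hk1' : 1 ≤ k := by
    have : 1 ≤ 2 ^ (N + 1) := Nat.one_le_two_pow
    omega
  have h2k : k < 2 ^ k := Nat.lt_two_pow_self
  refine ⟨5 * 2 ^ k - 1, by omega, k + 1 + (N + 2), ?_⟩
  rw [two_runs N k m hm]
  have hn1 : ((5 * 2 ^ k - 1 : ℕ) : ℝ) ≤ 5 * 2 ^ k := by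
    have : 5 * 2 ^ k - 1 ≤ 5 * 2 ^ k := Nat.sub_le _ _
    exact_mod_cast this
  have hn0 : (1 : ℝ) ≤ ((5 * 2 ^ k - 1 : ℕ) : ℝ) := by
    have : 1 ≤ 5 * 2 ^ k - 1 := by omega
    exact_mod_cast this
  have hlb3 : (2 : ℝ) ^ Real.logb 2 3 = 3 := Real.rpow_logb (by norm_num) (by norm_num) (by norm_num)
  have hlb32 : (2 : ℝ) ^ Real.logb 2 (3 / 2) = 3 / 2 :=
    Real.rpow_logb (by norm_num) (by norm_num) (by norm_num)
  have hpos3 : 0 ≤ Real.logb 2 3 := Real.logb_nonneg (by norm_num) (by norm_num)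
  have hpos32 : 0 ≤ Real.logb 2 (3 / 2) := Real.logb_nonneg (by norm_num) (by norm_num)
  -- the power of `n`
  have hA : ((5 * 2 ^ k - 1 : ℕ) : ℝ) ^ Real.logb 2 3 ≤ 27 * 3 ^ k := by
    calc ((5 * 2 ^ k - 1 : ℕ) : ℝ) ^ Real.logb 2 3 ≤ (5 * 2 ^ k : ℝ) ^ Real.logb 2 3 :=
          Real.rpow_le_rpow (by linarith) hn1 hpos3
      _ ≤ (2 ^ 3 * 2 ^ k : ℝ) ^ Real.logb 2 3 := by
          refine Real.rpow_le_rpow (by positivity) ?_ hpos3
          have : (0 : ℝ) < 2 ^ k := by positivity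
          nlinarith
      _ = ((2 : ℝ) ^ (3 + k)) ^ Real.logb 2 3 := by rw [pow_add]
      _ = ((2 : ℝ) ^ Real.logb 2 3) ^ (3 + k) := by
          rw [← Real.rpow_natCast, ← Real.rpow_natCast, ← Real.rpow_mul (by norm_num),
            ← Real.rpow_mul (by norm_num), mul_comm]
      _ = 27 * 3 ^ k := by rw [hlb3, pow_add]; norm_num
  -- the power of `log n`
  have hB : (Real.log ((5 * 2 ^ k - 1 : ℕ) : ℝ)) ^ Real.logb 2 (3 / 2) ≤ (3 / 2) ^ (N + 3) := by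
    have h1 : Real.log ((5 * 2 ^ k - 1 : ℕ) : ℝ) ≤ 2 ^ (N + 3) := by
      have h3 : Real.log ((5 * 2 ^ k - 1 : ℕ) : ℝ) ≤ Real.log (2 ^ (3 + k)) := by
        refine Real.log_le_log (by linarith) (hn1.trans ?_)
        rw [pow_add]
        have : (0 : ℝ) < 2 ^ k := by positivity
        nlinarith
      rw [Real.log_pow] at h3
      have h4 : Real.log 2 ≤ 1 := by
        have := Real.log_two_lt_d9
        linarith
      have h5 : ((3 + k : ℕ) : ℝ) * Real.log 2 ≤ ((3 + k : ℕ) : ℝ) :=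
        mul_le_of_le_one_right (by positivity) h4
      have h6 : 3 + k ≤ 2 ^ (N + 3) := by
        have e : 2 ^ (N + 3) = 2 * 2 ^ (N + 2) := by ring
        have e' : 2 ^ (N + 2) = 4 * 2 ^ N := by ring
        have : 1 ≤ 2 ^ N := Nat.one_le_two_pow
        omega
      have h7 : ((3 + k : ℕ) : ℝ) ≤ 2 ^ (N + 3) := by exact_mod_cast h6
      linarith
    calc (Real.log ((5 * 2 ^ k - 1 : ℕ) : ℝ)) ^ Real.logb 2 (3 / 2) ≤
          ((2 : ℝ) ^ (N + 3)) ^ Real.logb 2 (3 / 2) :=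
          Real.rpow_le_rpow (Real.log_nonneg hn0) h1 hpos32
      _ = ((2 : ℝ) ^ Real.logb 2 (3 / 2)) ^ (N + 3) := by
          rw [← Real.rpow_natCast, ← Real.rpow_natCast, ← Real.rpow_mul (by norm_num),
            ← Real.rpow_mul (by norm_num), mul_comm]
      _ = (3 / 2) ^ (N + 3) := by rw [hlb32]
  have hmul : ((5 * 2 ^ k - 1 : ℕ) : ℝ) ^ Real.logb 2 3 *
      (Real.log ((5 * 2 ^ k - 1 : ℕ) : ℝ)) ^ Real.logb 2 (3 / 2) ≤
      (27 * 3 ^ k) * (3 / 2) ^ (N + 3) := by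
    refine mul_le_mul hA hB (Real.rpow_nonneg (Real.log_nonneg hn0) _) (by positivity)
  -- the value reached
  have hval : (5 * 3 ^ k + 1 : ℝ) * (3 / 2) ^ (N + 2) / 2 - 1 = ((3 ^ (N + 2) * m - 1 : ℕ) : ℝ) := by
    have h1 : 1 ≤ 3 ^ (N + 2) * m := by
      rcases Nat.eq_zero_or_pos m with h | h
      · rw [h, mul_zero] at hm
        omega
      · exact Nat.one_le_iff_ne_zero.2 (by positivity)
    rw [Nat.cast_sub h1]
    have h2 : (5 * 3 ^ k + 1 : ℝ) = 2 ^ (N + 3) * m := by exact_mod_cast hm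
    rw [h2]
    push_cast
    rw [div_pow, pow_succ 2 (N + 2)]
    field_simp
  rw [← hval]
  have h32 : (1 : ℝ) ≤ (3 / 2) ^ (N + 2) := one_le_pow₀ (by norm_num)
  have h3k : (1 : ℝ) ≤ 3 ^ k := one_le_pow₀ (by norm_num)
  have hprod : (1 : ℝ) ≤ 3 ^ k * (3 / 2) ^ (N + 2) := by nlinarith
  have e3 : ((3 : ℝ) / 2) ^ (N + 3) = 3 / 2 * (3 / 2) ^ (N + 2) := by ring
  rw [e3] at hmul
  have e4 : (5 * 3 ^ k + 1 : ℝ) * (3 / 2) ^ (N + 2) / 2 =
      5 / 2 * (3 ^ k * (3 / 2) ^ (N + 2)) + 1 / 2 * (3 / 2) ^ (N + 2) := by ring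
  rw [e4]
  calc 4 / 243 * (((5 * 2 ^ k - 1 : ℕ) : ℝ) ^ Real.logb 2 3 *
      (Real.log ((5 * 2 ^ k - 1 : ℕ) : ℝ)) ^ Real.logb 2 (3 / 2)) ≤
        4 / 243 * ((27 * 3 ^ k) * (3 / 2 * (3 / 2) ^ (N + 2))) :=
        mul_le_mul_of_nonneg_left hmul (by norm_num)
    _ = 2 / 3 * (3 ^ k * (3 / 2) ^ (N + 2)) := by ring
    _ < _ := by linarith

end Pool.Agent.Results.MP_0a5adf_nt.BeyondMersenne
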