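import Pool.Agent.K7.H66.EX.I

/-!
# Clusters of large maximum excursions

`t(n)` denotes the maximum excursion of `n` under the accelerated `3x+1` map `T`. The proportion of the `n` with
`t(n) > lam * n` is asymptotic to a constant times `1 / lam`. Here the JOINT law of the large excursions of `n` and of the
numbers near `n` (more generally of the numbers `3^i n + r`) is determined. Large excursions come in clusters: given
that `t(n)` is large, the trajectories of `n` and of `m = 3^i n + r` coalesce before the maximum is reached with a probability which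
is positive and explicit, and then `t(m) = t(n)`; if they do not, then `t(m)` is not large. The maximum of `t(m) / m` over a window
`n ≤ m < n + H` exceeds `lam` with a probability asymptotic to `C e(H) / lam`, where `e(H) / H` decreases towards the
extremal index `θ`, which lies strictly between `0` and `1`.
-/

set_option autoImplicit false

namespace Pool.Agent.Results.MP_0a5adf_nt.ClustersOfExcursions

open Filter Topology

/-- the accelerated `3x+1` map -/
def T (n : ℕ) : ℕ := if n % 2 = 0 then n / 2 else (3 * n + 1) / 2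

/-- the maximum excursion -/
noncomputable def t (n : ℕ) : ℕ∞ := ⨆ k : ℕ, ((T^[k] n : ℕ) : ℕ∞)

/-- `t(n) > c * n` -/
def Large (c : ℝ) (n : ℕ) : Prop := ∃ k, c * n < (T^[k] n : ℕ)

/-- The set `S` contains `n` if and only if it contains `T n`, and all its members have bounded trajectories. For example: the `n` with
`t(n) < ∞`, or the `n` whose trajectory reaches `1`. -/
def Admissible (S : ℕ → Prop) : Prop := (∀ n, S n ↔ S (T n)) ∧ ∀ n, S n → ∃ M : ℕ, ∀ k, T^[k] n ≤ M

/-- the number of the positive integers `n ≤ N` with the property `P` -/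
noncomputable def count (P : ℕ → Prop) (N : ℕ) : ℝ := ({n : ℕ | 1 ≤ n ∧ n ≤ N ∧ P n}.ncard : ℝ)

/-- the positive integers with the property `P` have the natural density `δ` -/
def HasDensity (P : ℕ → Prop) (δ : ℝ) : Prop := Tendsto (fun N : ℕ => count P N / N) atTop (𝓝 δ)

/-- the number of the odd terms among `n, T n, ..., T^(k-1) n` -/
def odds (k n : ℕ) : ℕ := ((Finset.range k).filter fun i => T^[i] n % 2 = 1).card

/-- the pair `A = (i, r)` stands for the linear form `3 ^ i * n + r` -/
def form (A : ℕ × ℕ) (n : ℕ) : ℕ := 3 ^ A.1 * n + A.2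

/-- The forms of the family coalesce within `K` steps on the residue class of `x` modulo `2 ^ K`: for `n = x + 2 ^ K * y` one
has `T^K (form A n) = T^K (form A x) + 3 ^ (A.1 + odds K (form A x)) * y`, and these are the same for all `A` in `F`. -/
def Coalesce (K : ℕ) (F : Finset (ℕ × ℕ)) (x : ℕ) : Prop :=
  ∀ A ∈ F, ∀ B ∈ F, A.1 + odds K (form A x) = B.1 + odds K (form B x) ∧ T^[K] (form A x) = T^[K] (form B x)

open scoped Classical in
/-- the mean over the residues `x` modulo `2 ^ K` on which the family coalesces of `3 ^ (A.1 + odds K (form A x)) / 2 ^ K`, which is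
approximately `T^K (form A n) / n` for the large `n` of this class (the other residues count `0`) -/
noncomputable def mass (K : ℕ) (F : Finset (ℕ × ℕ)) (A : ℕ × ℕ) : ℝ :=
  (∑ x ∈ Finset.range (2 ^ K), if Coalesce K F x then (3 : ℝ) ^ (A.1 + odds K (form A x)) / 2 ^ K else 0) / 2 ^ K

/-- the sum of `3 ^ a / 4 ^ K` over the DIFFERENT pairs `(a, b)` among the `(odds K x, T^K x)`, `x < 2 ^ K` -/
noncomputable def classMass (K : ℕ) : ℝ :=
  (∑ B ∈ (Finset.range (2 ^ K)).image (fun x => (odds K x, T^[K] x)), (3 : ℝ) ^ B.1) / 4 ^ K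

open Pool.Agent.K7.H66.EX
open Pool.Agent.H499R2.ND (Tn Tn_eq Bdd Dn cnt)
open Pool.Agent.Helper894.Collatz (od)

theorem T_eq : T = Tn := by rw [← Tn_eq]; rfl

theorem T_eq' : T = Pool.Agent.Helper894.Collatz.T := rfl

theorem t_eq (n : ℕ) : t n = tx n := by unfold t tx; rw [T_eq]

theorem odds_eq (k n : ℕ) : odds k n = od k n := by
  unfold odds od
  rw [Finset.card_filter, T_eq']
  apply Finset.sum_congr rfl
  intro i _
  rcases Nat.mod_two_eq_zero_or_one (Pool.Agent.Helper894.Collatz.T^[i] n) with h | h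
  · rw [h]; simp
  · rw [h]; simp

theorem dens_eq (P : ℕ → Prop) (δ : ℝ) : HasDensity P δ ↔ Dn P δ := Iff.rfl

theorem large_eq (c : ℝ) (n : ℕ) : Large c n ↔ Exc n (c * n) := by
  unfold Large Exc; rw [T_eq]

theorem adm {S : ℕ → Prop} (h : Admissible S) : (∀ n, S n ↔ S (Tn n)) ∧ ∀ n, S n → Bdd n := by
  unfold Admissible at h
  rw [T_eq] at h
  exact h

open Pool.Agent.W38.CR Pool.Agent.K7.H66.CW in
theorem mass_eq (K : ℕ) (F : Finset (ℕ × ℕ)) (A : ℕ × ℕ) : mass K F A = ms K (F.image za) (za A) := by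
  classical
  have key : ∀ x < 2 ^ K, ∀ A : ℕ × ℕ, fl (bits K x) (za A) =
      (A.1 + odds K (form A x), ((T^[K] (form A x) : ℕ) : ℤ)) := by
    intro x hx A
    obtain ⟨h1, h2⟩ := fl_bits K x (za A) (fm A x) (fm_ev A x)
    rw [Nat.div_eq_of_lt hx] at h2
    unfold ev at h2
    push_cast at h2
    rw [mul_zero, zero_add] at h2
    rw [odds_eq, T_eq']
    exact Prod.ext h1 h2.symm
  have h1 := sum_bits K (fun l => ind (co (F.image za) l) * (3 : ℝ) ^ (fl l (za A)).1)
  unfold ms
  have h2 : av K (fun l => ind (co (F.image za) l) * (3 : ℝ) ^ (fl l (za A)).1) =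
      (∑ x ∈ Finset.range (2 ^ K), ind (co (F.image za) (bits K x)) * (3 : ℝ) ^ (fl (bits K x) (za A)).1) / 2 ^ K := by
    rw [h1]; field_simp
  rw [h2]
  unfold mass
  congr 1
  rw [Finset.sum_div]
  apply Finset.sum_congr rfl
  intro x hx
  rw [Finset.mem_range] at hx
  have h3 : co (F.image za) (bits K x) ↔ Coalesce K F x := by
    unfold co Coalesce
    constructor
    · intro h A hA B hB
      have := h (za A) (Finset.mem_image_of_mem _ hA) (za B) (Finset.mem_image_of_mem _ hB)
      rw [key x hx, key x hx, Prod.mk.injEq] at this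
      exact ⟨this.1, by exact_mod_cast this.2⟩
    · intro h A' hA' B' hB'
      rw [Finset.mem_image] at hA' hB'
      obtain ⟨A, hA, rfl⟩ := hA'
      obtain ⟨B, hB, rfl⟩ := hB'
      rw [key x hx, key x hx, (h A hA B hB).1, (h A hA B hB).2]
  rw [key x hx]
  by_cases h : Coalesce K F x
  · rw [if_pos h, ind_pos (h3.2 h), one_mul]
  · rw [if_neg h, ind_neg (fun h' => h (h3.1 h')), zero_mul, zero_div]

theorem classMass_eq (K : ℕ) : classMass K = tk K := by
  rw [tk_eq]
  unfold classMass
  have e : (fun x => (odds K x, T^[K] x)) = fun x => (od K x, Pool.Agent.Helper894.Collatz.T^[K] x) := by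
    funext x
    rw [odds_eq]
    rfl
  rw [e]

/-- CLUSTERS OF LARGE EXCURSIONS. There are constants `C > 0` and `θ`, functions `p` and `g` of the finite families `F` of forms `3 ^ i n + r`
(and of thresholds) and functions `e`, `w` of the length `H` of a window, such that

* (densities) every admissible `S` has a natural density `δ`, positive unless `S` has no positive member; for thresholds `lam A > 1` the set of the
  `n` in `S` with `t(m) > lam A * m`, `m = form A n`, for all `A` in `F` has the density `δ * g F lam`; the set of the `n` in `S` with `t(m) > lam * m` for some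
  `n ≤ m < n + H` has the density `δ * w H lam`;
* (joint law) for positive `u`: `lam * g F (lam * u) → C * p F / max (3 ^ i * u (i, r))` as `lam → ∞`;
* (equality of the maxima) for every `ε > 0` and all `lam ≥ L`: the set of the `n` in `S` such that `t(form A n) > lam * form A n` for all `A` in `F`, but
  not all the `t(form A n)` are equal, has upper density at most `ε / lam`;
* (the constants `p`) `p F` is the limit of the masses of coalescence; `0 < p F ≤ 3 ^ i` for `(i, r)` in `F`, with equality for `F = {(i, r)}`, and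
  `p F ≤ 3 ^ i / 2` if two different forms of `F` have the exponent `i`;
* (windows) `lam * w H lam → C * e H`, `e H ≥ θ H`, `e H / H → θ`; the extremal index `θ` is the limit of the decreasing sequence `classMass K`, and
  `1 / 1300 ≤ θ < 4 / 5`. -/
theorem result : ∃ (C θ : ℝ) (p : Finset (ℕ × ℕ) → ℝ) (g : Finset (ℕ × ℕ) → (ℕ × ℕ → ℝ) → ℝ) (e : ℕ → ℝ) (w : ℕ → ℝ → ℝ),
    0 < C ∧
    (∀ S : ℕ → Prop, Admissible S → ∃ δ : ℝ, 0 ≤ δ ∧ (0 < δ ↔ ∃ n, 1 ≤ n ∧ S n) ∧ HasDensity S δ ∧
      (∀ (F : Finset (ℕ × ℕ)) (lam : ℕ × ℕ → ℝ), (∀ A ∈ F, 1 < lam A) →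
        HasDensity (fun n => S n ∧ ∀ A ∈ F, Large (lam A) (form A n)) (δ * g F lam)) ∧
      (∀ (H : ℕ) (lam : ℝ), 1 < lam → HasDensity (fun n => S n ∧ ∃ h < H, Large lam (n + h)) (δ * w H lam)) ∧
      (∀ (F : Finset (ℕ × ℕ)) (ε : ℝ), 0 < ε → ∃ L : ℝ, ∀ lam : ℝ, L ≤ lam → ∃ N₀ : ℕ, ∀ N : ℕ, N₀ ≤ N →
        count (fun n => S n ∧ (∀ A ∈ F, Large lam (form A n)) ∧ ¬ ∀ A ∈ F, ∀ B ∈ F, t (form A n) = t (form B n)) N ≤
          ε * N / lam)) ∧
    (∀ (F : Finset (ℕ × ℕ)) (hF : F.Nonempty) (u : ℕ × ℕ → ℝ), (∀ A ∈ F, 0 < u A) →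
      Tendsto (fun lam : ℝ => lam * g F (fun A => lam * u A)) atTop
        (𝓝 (C * p F / F.sup' hF (fun A => 3 ^ A.1 * u A)))) ∧
    (∀ (F : Finset (ℕ × ℕ)), ∀ A ∈ F, Tendsto (fun K => mass K F A) atTop (𝓝 (p F)) ∧ 0 < p F ∧ p F ≤ 3 ^ A.1 ∧
      (F = {A} → p F = 3 ^ A.1) ∧ ∀ B ∈ F, A ≠ B → A.1 = B.1 → p F ≤ 3 ^ A.1 / 2) ∧
    (∀ H : ℕ, Tendsto (fun lam : ℝ => lam * w H lam) atTop (𝓝 (C * e H)) ∧ θ * H ≤ e H) ∧
    Tendsto (fun H : ℕ => e H / H) atTop (𝓝 θ) ∧
    Antitone classMass ∧ Tendsto classMass atTop (𝓝 θ) ∧ 1 / 1300 ≤ θ ∧ θ < 4 / 5 := by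
  classical
  refine ⟨Pool.Agent.W36.SL.C, Pool.Agent.K7.H66.EX.th, fun F => if h : F.Nonempty then pF (F.image za) (za h.choose) else 0,
    fun F lam => Jl (F.image za) (tt lam), fun H => eF (Fh H), fun H lam => Ul (Fh H) lam,
    Pool.Agent.W36.SL.C_pos, ?_, ?_, ?_, ?_, eF_tendsto, ?_, ?_, th_lower, th_upper⟩
  · intro S hS
    obtain ⟨h1, h2⟩ := adm hS
    obtain ⟨δ, g0, _, g2, g3, _⟩ := Pool.Agent.H499R2.ND.nat_density (P := S) fun n _ => h1 n
    have g2' : Dn S δ := g2
    refine ⟨δ, g0, g3, g2', ?_, ?_, ?_⟩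
    · intro F lam hl
      have h3 := joint_density h1 h2 g2' F hl
      rw [dens_eq, mul_comm]
      refine h3.congr fun N => ?_
      have e : (fun n => S n ∧ ∀ A ∈ F, Exc (fm A n) (lam A * fm A n)) = fun n => S n ∧ ∀ A ∈ F, Large (lam A) (form A n) := by
        funext n
        simp only [large_eq]
        rfl
      rw [e]
    · intro H lam hl
      have h3 := window_density h1 h2 g2' H hl
      rw [dens_eq, mul_comm]
      refine h3.congr fun N => ?_
      have e : (fun n => S n ∧ ∃ h < H, Exc (n + h) (lam * ((n + h : ℕ) : ℝ))) = fun n => S n ∧ ∃ h < H, Large lam (n + h) := by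
        funext n
        simp only [large_eq]
      rw [e]
    · intro F ε hε
      obtain ⟨L, _, hL⟩ := maxima h2 F hε
      refine ⟨L, fun lam hlam => ?_⟩
      obtain ⟨N₀, hN⟩ := eventually_atTop.1 (hL lam hlam)
      refine ⟨N₀, fun N hNN => ?_⟩
      have h3 := hN N hNN
      have e : (fun n => S n ∧ (∀ A ∈ F, Exc (fm A n) (lam * fm A n)) ∧ ¬ ∀ A ∈ F, ∀ B ∈ F, tx (fm A n) = tx (fm B n)) =
          fun n => S n ∧ (∀ A ∈ F, Large lam (form A n)) ∧ ¬ ∀ A ∈ F, ∀ B ∈ F, t (form A n) = t (form B n) := by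
        funext n
        simp only [large_eq, t_eq]
        rfl
      rw [e] at h3
      exact h3
  · intro F hF u hu
    have hne : (F.image za).Nonempty := hF.image za
    have h1 := Jl_law hne (A := za hF.choose) (Finset.mem_image_of_mem _ hF.choose_spec) (θ := tt u) (by
      intro B hB
      rw [Finset.mem_image] at hB
      obtain ⟨A, hA, rfl⟩ := hB
      rw [tt_za]
      have := hu A hA
      positivity)
    have e1 : (F.image za).sup' hne (tt u) = F.sup' hF (fun A => 3 ^ A.1 * u A) := by
      rw [Finset.sup'_image]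
      apply Finset.sup'_congr hF rfl
      intro A _
      simp only [Function.comp]
      exact tt_za u A
    rw [e1] at h1
    simp only [dif_pos hF]
    refine h1.congr fun lam => ?_
    congr 2
    funext B
    unfold tt
    ring
  · intro F A hA
    have hF : F.Nonempty := ⟨A, hA⟩
    have hA' := Finset.mem_image_of_mem za hA
    have e : pF (F.image za) (za hF.choose) = pF (F.image za) (za A) :=
      pF_eq (Finset.mem_image_of_mem _ hF.choose_spec) hA'
    simp only [dif_pos hF]
    rw [e]
    refine ⟨?_, pF_pos _ _, pF_le _ _, ?_, ?_⟩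
    · refine (ms_tendsto (F.image za) (za A)).congr fun K => ?_
      rw [mass_eq]
    · intro h
      have h2 : F.image za = {za A} := by rw [h, Finset.image_singleton]
      rw [h2]
      exact pF_single (za A)
    · intro B hB hAB h1
      exact pF_half hA' (Finset.mem_image_of_mem _ hB) (fun h => hAB (za_inj h)) h1
  · intro H
    refine ⟨Ul_law (Fh H), ?_⟩
    rw [mul_comm]
    exact eF_lower H
  · intro K K' h
    rw [classMass_eq, classMass_eq]
    exact tk_anti h
  · refine tk_tendsto.congr fun K => ?_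
    rw [classMass_eq]

end Pool.Agent.Results.MP_0a5adf_nt.ClustersOfExcursions
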