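import Pool.Agent.Y927.GP.M2
import Pool.Agent.K7.H67.EXC.Traj
import Pool.Agent.K7.H67.EXC.Dig
import Pool.Agent.K7.H67.CUB.Comp

/-!
# Maximum excursions along thin families of integers which are spread over the residue classes modulo the powers of `2`

Let `x i`, `i ∈ S`, be a finite family of integers of any size. It is called spread down to `X` (with the constants `C`, `τ`) if, for all
`2 ^ n ≤ X`, every residue class modulo `2 ^ n` contains at most `C |S| / (2 ^ n) ^ (1 - τ)` of the `x i`.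

**Theorem.** Let `f` be a nonconstant polynomial with integer coefficients and `ε > 0`. There are `η, δ, τ > 0` such that for every
family which is spread down to `X ≥ X₀ (C)` all but a proportion `X ^ (-δ)` of its members have the following property: if `v = f (x i)` is positive,
then a term `T^k (v)` of its trajectory is at most `v X ^ (-η)`, and no earlier one exceeds `v min (X, v) ^ ε`, so that the
maximum excursion `t (v)` is at most `v min (X, v) ^ ε` or equal to the maximum excursion of the smaller number `T^k (v)`. The same holds, with `X` replaced by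
`p` (a power of `p` is contained in the constants), for all but a proportion `p ^ (-δ)` of the members of

* every family of natural numbers below a prime `p` whose exponential sums modulo `p` have a power saving `p ^ (-κ)`;
* the least residues of `b u ^ m + a` modulo a prime `p`, `1 ≤ m ≤ x`, where `p ^ κ ≤ x` and `x` is at most the order of `u`;
* the least residues of `u_1 ⋯ u_k + f_1 + … + f_k` where `u_i` runs over an arbitrary set of at least `p ^ κ` residues and `f_i` is an arbitrary function of the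
  variables other than `u_i`, if `k ≥ k₀ (κ)`;

and, with `X = 2 ^ (L K)`, of the integers with `K` digits in base `2 ^ L` all of which belong to a given set of at least `2 ^ ((1 - τ) L)` digits.
-/

set_option autoImplicit false

namespace Pool.Agent.Results.MP_0a5adf_nt.SpreadFamilies

open Finset Filter Polynomial Pool.Agent.Y927.GP

/-- The accelerated `3x+1` function. -/
def T (n : ℕ) : ℕ := if n % 2 = 0 then n / 2 else (3 * n + 1) / 2

/-- The maximum excursion. -/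
noncomputable def t (n : ℕ) : ℕ∞ := ⨆ k : ℕ, ((T^[k] n : ℕ) : ℕ∞)

/-- Some term `T^k (v)` is at most `v X ^ (-η)`, no term before it exceeds `v min (X, v) ^ ε`, and the maximum excursion of `v` is at most
`v min (X, v) ^ ε` or equal to the maximum excursion of `T^k (v)`. -/
def Descends (η ε X : ℝ) (v : ℕ) : Prop :=
  ∃ k : ℕ, ((T^[k] v : ℕ) : ℝ) ≤ v * X ^ (-η) ∧ (∀ j ≤ k, ((T^[j] v : ℕ) : ℝ) ≤ v * (min X (v : ℝ)) ^ ε) ∧
    (t v ≤ (⌊(v : ℝ) * (min X (v : ℝ)) ^ ε⌋₊ : ℕ∞) ∨ t v = t (T^[k] v))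

open Classical in
/-- The number of the members `x i`, `i ∈ S`, for which `f (x i)` is a positive integer `v` which does not have the property `Descends`. -/
noncomputable def exceptions {ι : Type} (f : ℤ[X]) (S : Finset ι) (x : ι → ℤ) (η ε X : ℝ) : ℕ :=
  (S.filter (fun i => ∃ v : ℕ, 1 ≤ v ∧ f.eval (x i) = v ∧ ¬ Descends η ε X v)).card

open Classical in
/-- For all `2 ^ n ≤ X` every residue class modulo `2 ^ n` contains at most `C |S| / (2 ^ n) ^ (1 - τ)` of the `x i`, `i ∈ S`. -/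
def Spread {ι : Type} (S : Finset ι) (x : ι → ℤ) (C τ X : ℝ) : Prop :=
  ∀ n : ℕ, (2 : ℝ) ^ n ≤ X → ∀ a : ℤ, ((S.filter (fun i => (2 : ℤ) ^ n ∣ x i - a)).card : ℝ) ≤ C * S.card / ((2 : ℝ) ^ n) ^ (1 - τ)

/-- the least residue of `b u ^ m + a` modulo `p` -/
def power {p : ℕ} (b a : ZMod p) (u : (ZMod p)ˣ) (m : ℕ) : ℤ := ((b * ((u ^ m : (ZMod p)ˣ) : ZMod p) + a).val : ℕ)

/-- the least residue of `u_1 ⋯ u_k + f_1 (u) + … + f_k (u)` modulo `p` -/
def multilinear {p k : ℕ} (f : Fin k → (Fin k → ZMod p) → ZMod p) (u : Fin k → ZMod p) : ℤ := ((∏ i, u i + ∑ i, f i u).val : ℕ)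

/-- The natural numbers below `(2 ^ L) ^ K` all of whose `K` digits in base `2 ^ L` belong to `W`. -/
def restricted (L K : ℕ) (W : Finset ℕ) : Finset ℕ :=
  (range ((2 ^ L) ^ K)).filter (fun n => ∀ j < K, n / (2 ^ L) ^ j % 2 ^ L ∈ W)

theorem T_cast (n : ℕ) : ((T n : ℕ) : ℤ) = Mo.T 2 3 (fun _ => -1) (n : ℤ) := by
  unfold T Mo.T
  push_cast
  split_ifs with h1 h2 h2 <;> omega

theorem iter_cast (n : ℕ) (k : ℕ) : ((T^[k] n : ℕ) : ℤ) = (Mo.T 2 3 (fun _ => -1))^[k] (n : ℤ) := by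
  induction k generalizing n with
  | zero => rfl
  | succ k ih =>
    rw [Function.iterate_succ_apply, Function.iterate_succ_apply, ih, T_cast]

theorem t_split {v k A : ℕ} (h : ∀ j ≤ k, T^[j] v ≤ A) : t v ≤ (A : ℕ∞) ∨ t v = t (T^[k] v) := by
  have hle : ∀ j, ((T^[j] v : ℕ) : ℕ∞) ≤ (A : ℕ∞) ∨ ((T^[j] v : ℕ) : ℕ∞) ≤ t (T^[k] v) := by
    intro j
    rcases le_or_gt j k with hj | hj
    · left
      exact_mod_cast h j hj
    · right
      obtain ⟨i, rfl⟩ : ∃ i, j = i + k := ⟨j - k, by omega⟩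
      rw [Function.iterate_add_apply]
      exact le_iSup (fun i => ((T^[i] (T^[k] v) : ℕ) : ℕ∞)) i
  rcases le_or_gt (t (T^[k] v)) (A : ℕ∞) with h1 | h1
  · left
    apply iSup_le
    intro j
    rcases hle j with h2 | h2
    · exact h2
    · exact h2.trans h1
  · right
    apply le_antisymm
    · apply iSup_le
      intro j
      rcases hle j with h2 | h2
      · exact h2.trans h1.le
      · exact h2
    · apply iSup_le
      intro i
      rw [← Function.iterate_add_apply]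
      exact le_iSup (fun i => ((T^[i] v : ℕ) : ℕ∞)) (i + k)

/-- the criterion -/
lemma core (f : ℤ[X]) (hf : 1 ≤ f.natDegree) (ε : ℝ) (hε : 0 < ε) : ∃ η δ τ : ℝ, 0 < η ∧ 0 < δ ∧ 0 < τ ∧ τ ≤ 1 ∧
    ∀ C : ℝ, 0 < C → ∃ X₀ : ℝ, 1 ≤ X₀ ∧ ∀ X : ℝ, X₀ ≤ X → ∀ (ι : Type) (S : Finset ι) (x : ι → ℤ), Spread S x C τ X →
      (exceptions f S x η ε X : ℝ) ≤ X ^ (-δ) * S.card := by
  classical
  have hc : Nat.Coprime 3 2 := by norm_num
  have hr : ∀ j : ℤ, 1 ≤ j → j < (2 : ℕ) → ((2 : ℕ) : ℤ) ∣ ((3 : ℕ) : ℤ) * j - (fun _ : ℤ => (-1 : ℤ)) j := by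
    intro j h1 h2
    push_cast at h2 ⊢
    have hj : j = 1 := by omega
    rw [hj]
    norm_num
  have D := Mo.data (r := fun _ => (-1 : ℤ)) (le_refl 2) hc hr
  have hC := Mo.cls (m := 3) (r := fun _ => (-1 : ℤ)) (le_refl 2)
  have hTT : (Pool.Agent.H319R2.Leigh.gm D).T = Mo.T 2 3 (fun _ => -1) := by
    rw [Pool.Agent.H319R2.Leigh.gm_T, Mo.T_eq]
  have hmu := Mo.mu_eq (le_refl 2) D
  have hl2 : 0 < Real.log 2 := Real.log_pos (by norm_num)
  obtain ⟨μ, hμdef⟩ : ∃ μ, μ = mu (Pool.Agent.H319R2.Leigh.gm D) (Mo.CC 2) (fun _ => 1 / ((2 : ℕ) : ℝ)) := ⟨_, rfl⟩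
  have hμ : μ < 0 := by
    rw [hμdef, hmu]
    have h2 : Real.log 3 < 2 * Real.log 2 := by
      have : (2 : ℝ) * Real.log 2 = Real.log 4 := by
        rw [show (4 : ℝ) = 2 ^ 2 by norm_num, Real.log_pow]
        norm_num
      rw [this]
      exact Real.log_lt_log (by norm_num) (by norm_num)
    push_cast
    norm_num
    linarith
  obtain ⟨ε', hε'⟩ : ∃ ε', ε' = min ε (-μ / (2 * Real.log 2)) := ⟨_, rfl⟩
  have hε'0 : 0 < ε' := by rw [hε']; exact lt_min hε (by apply div_pos <;> linarith)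
  have hε'1 : ε' ≤ ε := by rw [hε']; exact min_le_left _ _
  have hε'2 : ε' ≤ -μ / (2 * Real.log 2) := by rw [hε']; exact min_le_right _ _
  obtain ⟨c, δ, τ, hc0, hc1, hδ, hτ, h⟩ := Pool.Agent.K7.H67.EXC.traj_powF (Pool.Agent.H319R2.Leigh.gm_fac D)
    (Pool.Agent.H319R2.Leigh.gm_cls D hC) hf hε'0 1
  rw [← hμdef] at h
  obtain ⟨c₂, hc₂⟩ : ∃ c₂, c₂ = c * (-μ) / (4 * Real.log 2) := ⟨_, rfl⟩
  have hc₂0 : 0 < c₂ := by
    rw [hc₂]
    apply div_pos
    · exact mul_pos hc0 (by linarith)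
    · positivity
  refine ⟨c₂, δ, min τ 1, hc₂0, hδ, lt_min hτ one_pos, min_le_right _ _, fun C hC0 => ?_⟩
  obtain ⟨X₁, hX₁, h⟩ := h C hC0
  have hev : ∀ᶠ X : ℝ in atTop, Real.exp (-μ) ≤ X ^ c₂ := (tendsto_rpow_atTop hc₂0).eventually (eventually_ge_atTop _)
  obtain ⟨X₂, hX₂⟩ := eventually_atTop.1 hev
  refine ⟨max X₁ X₂, le_max_of_le_left hX₁, fun X hX ι S x hS => ?_⟩
  have hXX₁ : X₁ ≤ X := (le_max_left _ _).trans hX
  have hX1 : 1 ≤ X := hX₁.trans hXX₁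
  have hXp : 0 < X := by linarith
  have hXc1 : 1 ≤ X ^ c := Real.one_le_rpow hX1 hc0.le
  have hlX : 0 ≤ Real.log X := Real.log_nonneg hX1
  have hFro : Pool.Agent.K7.H67.EXC.Fro (Pool.Agent.H319R2.Leigh.gm D).d S x C τ X := by
    intro n hn a
    have hn' : (2 : ℝ) ^ n ≤ X := hn
    have h1 := hS n hn' a
    have h2 : S.filter (fun i => x i ≡ a [ZMOD (((Pool.Agent.H319R2.Leigh.gm D).d : ℕ) : ℤ) ^ n]) =
        S.filter (fun i => (2 : ℤ) ^ n ∣ x i - a) := by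
      apply filter_congr
      intro i _
      have h3 : (((Pool.Agent.H319R2.Leigh.gm D).d : ℕ) : ℤ) = 2 := rfl
      rw [h3]
      constructor
      · intro h4
        exact (Int.modEq_iff_dvd.1 h4.symm)
      · intro h4
        exact (Int.modEq_iff_dvd.2 h4).symm
    rw [h2]
    have h5 : (((Pool.Agent.H319R2.Leigh.gm D).d : ℕ) : ℝ) = 2 := rfl
    rw [h5]
    refine h1.trans ?_
    have h6 : (1 : ℝ) ≤ (2 : ℝ) ^ n := one_le_pow₀ (by norm_num)
    apply div_le_div_of_nonneg_left (by positivity) (by positivity)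
    exact Real.rpow_le_rpow_of_exponent_le h6 (by linarith [min_le_left τ 1])
  unfold exceptions
  apply h X hXX₁ ι S x hFro _ (filter_subset _ _)
  intro i hi
  rw [mem_filter] at hi
  obtain ⟨v, hv, hfv, hnd⟩ := hi.2
  refine ⟨Mo.mem_S (le_refl 2) _, ?_⟩
  rintro ⟨h1, h2⟩
  apply hnd
  rw [Real.rpow_one] at h1
  rw [hfv] at h1 h2
  have hv1 : (1 : ℝ) ≤ v := by exact_mod_cast hv
  have hvabs : |((v : ℤ) : ℝ)| = v := by
    rw [Int.cast_natCast]
    exact abs_of_nonneg (by linarith)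
  rw [hvabs] at h1
  have hcs : 0 ≤ c * Real.log X / Real.log 2 := by positivity
  have hfl := Nat.floor_le hcs
  have hfl2 := Nat.lt_floor_add_one (c * Real.log X / Real.log 2)
  obtain ⟨k, hk⟩ : ∃ k, k = ⌊c * Real.log X / Real.log 2⌋₊ := ⟨_, rfl⟩
  rw [← hk] at hfl hfl2
  have hgd : ((Pool.Agent.H319R2.Leigh.gm D).d : ℝ) = 2 := rfl
  have hXcexp : ∀ z : ℝ, (X ^ c) ^ z = Real.exp (c * Real.log X * z) := by
    intro z
    rw [← Real.rpow_mul hXp.le, Real.rpow_def_of_pos hXp]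
    congr 1
    ring
  have hXc : X ^ c = Real.exp (c * Real.log X) := by
    rw [Real.rpow_def_of_pos hXp]
    congr 1
    ring
  have hstep : ∀ j ≤ k, ((T^[j] v : ℕ) : ℝ) ≤ (X ^ c) ^ ε' * Real.exp (j * μ) * v := by
    intro j hj
    have h7 : (j : ℝ) * Real.log 2 ≤ c * Real.log X := by
      have : (j : ℝ) ≤ k := by exact_mod_cast hj
      rw [le_div_iff₀ hl2] at hfl
      nlinarith
    have h8 := (h2 j (by
      rw [hgd]
      calc (2 : ℝ) ^ j = Real.exp (j * Real.log 2) := by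
            rw [Real.exp_nat_mul, Real.exp_log (by norm_num)]
        _ ≤ Real.exp (c * Real.log X) := Real.exp_le_exp.2 h7
        _ = X ^ c := hXc.symm)).2
    rw [hTT, ← iter_cast, hvabs, Int.cast_natCast, abs_of_nonneg (Nat.cast_nonneg _)] at h8
    exact h8
  have hXcX : X ^ c ≤ X := by
    calc X ^ c ≤ X ^ (1 : ℝ) := Real.rpow_le_rpow_of_exponent_le hX1 hc1
      _ = X := Real.rpow_one _
  have hmin : X ^ c ≤ min X (v : ℝ) := le_min hXcX h1
  have hmin1 : 1 ≤ min X (v : ℝ) := le_min hX1 hv1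
  have hup : ∀ j ≤ k, ((T^[j] v : ℕ) : ℝ) ≤ v * (min X (v : ℝ)) ^ ε := by
    intro j hj
    refine (hstep j hj).trans ?_
    have h9 : (X ^ c) ^ ε' * Real.exp (j * μ) ≤ (min X (v : ℝ)) ^ ε := by
      have hj0 : (0 : ℝ) ≤ j := Nat.cast_nonneg _
      have h10 : Real.exp (j * μ) ≤ 1 := Real.exp_le_one_iff.2 (mul_nonpos_of_nonneg_of_nonpos hj0 hμ.le)
      calc (X ^ c) ^ ε' * Real.exp (j * μ) ≤ (X ^ c) ^ ε' * 1 := mul_le_mul_of_nonneg_left h10 (by positivity)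
        _ = (X ^ c) ^ ε' := mul_one _
        _ ≤ (X ^ c) ^ ε := Real.rpow_le_rpow_of_exponent_le hXc1 hε'1
        _ ≤ _ := Real.rpow_le_rpow (by positivity) hmin hε.le
    calc (X ^ c) ^ ε' * Real.exp (j * μ) * v ≤ (min X (v : ℝ)) ^ ε * v := mul_le_mul_of_nonneg_right h9 (by linarith)
      _ = _ := mul_comm _ _
  refine ⟨k, ?_, hup, ?_⟩
  · refine (hstep k le_rfl).trans ?_
    rw [mul_comm]
    apply mul_le_mul_of_nonneg_left _ (by linarith)
    have h8 := hX₂ X ((le_max_right _ _).trans hX)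
    have h9 : (k : ℝ) * μ ≤ (c * Real.log X / Real.log 2 - 1) * μ := by
      apply mul_le_mul_of_nonpos_right _ hμ.le
      linarith
    have h10 : c * Real.log X * ε' ≤ c * Real.log X * (-μ / (2 * Real.log 2)) := mul_le_mul_of_nonneg_left hε'2 (by positivity)
    have h11 : c * Real.log X * (-μ / (2 * Real.log 2)) + (c * Real.log X / Real.log 2 - 1) * μ = -(2 * (c₂ * Real.log X)) + (-μ) := by
      rw [hc₂]
      field_simp
      ring
    calc (X ^ c) ^ ε' * Real.exp (k * μ) = Real.exp (c * Real.log X * ε' + k * μ) := by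
          rw [hXcexp, Real.exp_add]
      _ ≤ Real.exp (-(2 * (c₂ * Real.log X)) + (-μ)) := Real.exp_le_exp.2 (by linarith)
      _ = X ^ (-(2 * c₂)) * Real.exp (-μ) := by
          rw [Real.exp_add, Real.rpow_def_of_pos hXp]
          congr 2
          ring
      _ ≤ X ^ (-(2 * c₂)) * X ^ c₂ := mul_le_mul_of_nonneg_left h8 (by positivity)
      _ = X ^ (-c₂) := by
          rw [← Real.rpow_add hXp]
          congr 1
          ring
  · apply t_split
    intro j hj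
    exact Nat.le_floor (hup j hj)

/-- equidistributed families of natural numbers are spread -/
lemma spread_of_equi {ι : Type} (S : Finset ι) (x : ι → ℕ) (X : ℕ) (hX : 1 ≤ X) (h : Pool.Agent.K7.H67.CUB.EquiD S x X) (τ : ℝ) (hτ : 0 < τ)
    (Y : ℝ) (hY : Y ≤ X) : Spread S (fun i => (x i : ℤ)) 2 τ Y := by
  classical
  intro n hn a
  have hX0 : (0 : ℝ) < X := by exact_mod_cast hX
  have hnX : 2 ^ n ≤ X := by
    have h1 : ((2 ^ n : ℕ) : ℝ) ≤ X := by
      push_cast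
      exact hn.trans hY
    exact_mod_cast h1
  have hp : (0 : ℤ) < 2 ^ n := by positivity
  obtain ⟨r, hr⟩ : ∃ r : ℕ, r = (a % 2 ^ n).toNat := ⟨_, rfl⟩
  have hr0 := Int.emod_nonneg a hp.ne'
  have hr1 := Int.emod_lt_of_pos a hp
  have hrr : ((r : ℕ) : ℤ) = a % 2 ^ n := by rw [hr]; exact Int.toNat_of_nonneg hr0
  have hr2 : r < 2 ^ n := by
    have : ((r : ℕ) : ℤ) < ((2 ^ n : ℕ) : ℤ) := by rw [hrr]; push_cast; exact hr1
    exact_mod_cast this
  have h1 := h (2 ^ n) (Nat.one_le_two_pow) hnX r hr2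
  have h2 : S.filter (fun i => (2 : ℤ) ^ n ∣ (x i : ℤ) - a) = S.filter (fun i => x i % 2 ^ n = r) := by
    apply filter_congr
    intro i _
    constructor
    · intro h3
      have h4 : (x i : ℤ) % 2 ^ n = a % 2 ^ n := Int.ModEq.symm (Int.modEq_iff_dvd.2 h3)
      have h5 : ((x i % 2 ^ n : ℕ) : ℤ) = (r : ℤ) := by
        rw [hrr, ← h4]
        push_cast
        rfl
      exact_mod_cast h5
    · intro h3
      have h5 : ((x i % 2 ^ n : ℕ) : ℤ) = a % 2 ^ n := by rw [h3, hrr]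
      push_cast at h5
      exact (Int.modEq_iff_dvd.1 (Int.ModEq.symm h5))
  rw [h2]
  have h3 := (abs_le.1 h1).2
  have hn0 : (0 : ℝ) < (2 : ℝ) ^ n := by positivity
  have h4 : (S.card : ℝ) / X ≤ S.card / (2 : ℝ) ^ n := by
    apply div_le_div_of_nonneg_left (Nat.cast_nonneg _) hn0
    exact_mod_cast hnX
  push_cast at h3
  calc ((S.filter (fun i => x i % 2 ^ n = r)).card : ℝ) ≤ 2 * S.card / (2 : ℝ) ^ n := by
        have e1 : 2 * (S.card : ℝ) / (2 : ℝ) ^ n = S.card / (2 : ℝ) ^ n + S.card / (2 : ℝ) ^ n := by ring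
        rw [e1]
        linarith
    _ ≤ _ := by
        apply div_le_div_of_nonneg_left (by positivity) (by positivity)
        calc ((2 : ℝ) ^ n) ^ (1 - τ) ≤ ((2 : ℝ) ^ n) ^ (1 : ℝ) :=
              Real.rpow_le_rpow_of_exponent_le (one_le_pow₀ (by norm_num)) (by linarith)
          _ = _ := Real.rpow_one _

/-- passing from `X = p ^ κ` to `p` -/
lemma descends_mono {η ε κ p : ℝ} (hp : 1 ≤ p) (hκ1 : κ ≤ 1) (hε : 0 < ε) {v : ℕ} (hv : 1 ≤ v) (h : Descends η ε (p ^ κ) v) :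
    Descends (κ * η) ε p v := by
  obtain ⟨k, h1, h2, h3⟩ := h
  have hv1 : (1 : ℝ) ≤ v := by exact_mod_cast hv
  have hpp : p ^ κ ≤ p := by
    calc p ^ κ ≤ p ^ (1 : ℝ) := Real.rpow_le_rpow_of_exponent_le hp hκ1
      _ = p := Real.rpow_one _
  have hp0 : 0 < p := by linarith
  have hpk : 0 < p ^ κ := by positivity
  have h4 : (v : ℝ) * (min (p ^ κ) (v : ℝ)) ^ ε ≤ v * (min p (v : ℝ)) ^ ε := by
    apply mul_le_mul_of_nonneg_left _ (by linarith)
    apply Real.rpow_le_rpow (le_min hpk.le (by linarith)) _ hε.le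
    exact min_le_min_right _ hpp
  refine ⟨k, ?_, fun j hj => (h2 j hj).trans h4, ?_⟩
  · refine h1.trans (le_of_eq ?_)
    rw [← Real.rpow_mul hp0.le]
    congr 2
    ring
  · rcases h3 with h3 | h3
    · left
      refine h3.trans ?_
      exact_mod_cast Nat.floor_le_floor h4
    · right
      exact h3

/-- **Maximum excursions along spread families.** See the introduction of the file. -/
theorem result (f : ℤ[X]) (hf : 1 ≤ f.natDegree) (ε : ℝ) (hε : 0 < ε) :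
    (∃ η δ τ : ℝ, 0 < η ∧ 0 < δ ∧ 0 < τ ∧
      (∀ C : ℝ, 0 < C → ∃ X₀ : ℝ, ∀ X : ℝ, X₀ ≤ X → ∀ (ι : Type) (S : Finset ι) (x : ι → ℤ), Spread S x C τ X →
        (exceptions f S x η ε X : ℝ) ≤ X ^ (-δ) * S.card) ∧
      (∀ L : ℕ, 1 ≤ L → ∃ K₀ : ℕ, ∀ K : ℕ, K₀ ≤ K → ∀ W : Finset ℕ, W ⊆ range (2 ^ L) → ((2 : ℝ) ^ L) ^ (1 - τ) ≤ W.card →
        (exceptions f (restricted L K W) (fun n : ℕ => (n : ℤ)) η ε ((2 : ℝ) ^ (L * K)) : ℝ) ≤
          ((2 : ℝ) ^ (L * K)) ^ (-δ) * (restricted L K W).card)) ∧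
    (∀ κ : ℝ, 0 < κ → ∃ η δ : ℝ, 0 < η ∧ 0 < δ ∧ ∃ p₀ : ℕ, ∀ p : ℕ, p₀ ≤ p → p.Prime →
      (∀ (ι : Type) (S : Finset ι) (x : ι → ℕ), (∀ i ∈ S, x i < p) →
        (∀ j : ℕ, 1 ≤ j → j < p → ‖∑ i ∈ S, Complex.exp (2 * Real.pi * Complex.I * ((j : ℂ) * x i / p))‖ ≤ S.card * (p : ℝ) ^ (-κ)) →
        (exceptions f S (fun i => (x i : ℤ)) η ε p : ℝ) ≤ (p : ℝ) ^ (-δ) * S.card) ∧
      (∀ (b a : ZMod p) (u : (ZMod p)ˣ) (x : ℕ), b ≠ 0 → (p : ℝ) ^ κ ≤ x → x ≤ orderOf u →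
        (exceptions f (Icc 1 x) (power b a u) η ε p : ℝ) ≤ (p : ℝ) ^ (-δ) * x)) ∧
    (∀ κ : ℝ, 0 < κ → ∃ k₀ : ℕ, ∀ k : ℕ, k₀ ≤ k → ∃ η δ : ℝ, 0 < η ∧ 0 < δ ∧ ∃ p₀ : ℕ, ∀ p : ℕ, p₀ ≤ p → p.Prime →
      ∀ (U : Fin k → Finset (ZMod p)) (h : Fin k → (Fin k → ZMod p) → ZMod p), (∀ i, (p : ℝ) ^ κ ≤ (U i).card) →
        (∀ (i : Fin k) (u v : Fin k → ZMod p), (∀ j, j ≠ i → u j = v j) → h i u = h i v) →
        (exceptions f (Fintype.piFinset U) (multilinear h) η ε p : ℝ) ≤ (p : ℝ) ^ (-δ) * (Fintype.piFinset U).card) := by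
  classical
  obtain ⟨η, δ, τ, hη, hδ, hτ, hτ1, hcore⟩ := core f hf ε hε
  -- families with a power saving modulo a prime
  have hprime : ∀ κ : ℝ, 0 < κ → κ ≤ 1 → ∃ p₀ : ℕ, ∀ p : ℕ, p₀ ≤ p → p.Prime →
      ∀ (ι : Type) (S : Finset ι) (x : ι → ℕ), (∀ i ∈ S, x i < p) →
        (∀ j : ℕ, 1 ≤ j → j < p → ‖∑ i ∈ S, Pool.Agent.H807R2.Dav.ee ((j : ℝ) * ((x i : ℝ) / p))‖ ≤ S.card * (p : ℝ) ^ (-κ)) →
        (exceptions f S (fun i => (x i : ℤ)) (κ / 4 * η) ε p : ℝ) ≤ (p : ℝ) ^ (-(κ / 4 * δ)) * S.card := by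
    intro κ hκ hκ1
    obtain ⟨p₁, heq⟩ := Pool.Agent.K7.H67.CUB.equi_of κ hκ hκ1
    obtain ⟨X₀, hX₀1, hX₀⟩ := hcore 2 (by norm_num)
    obtain ⟨p₂, hp₂⟩ : ∃ p₂ : ℕ, ∀ p : ℕ, p₂ ≤ p → X₀ + 2 ≤ (p : ℝ) ^ (κ / 4) := by
      have h1 : Tendsto (fun x : ℝ => x ^ (κ / 4)) atTop atTop := tendsto_rpow_atTop (by positivity)
      exact eventually_atTop.1 ((h1.comp tendsto_natCast_atTop_atTop).eventually (eventually_ge_atTop _))
    refine ⟨p₁ + p₂, fun p hp hpp ι S x hx hsum => ?_⟩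
    have hp1 : (1 : ℝ) ≤ p := by exact_mod_cast hpp.one_lt.le
    have hp0 : (0 : ℝ) < p := by linarith
    have h2 := hp₂ p (by omega)
    -- `X = ⌊p ^ (κ / 2)⌋ ≥ p ^ (κ / 4)`
    have h3 : (p : ℝ) ^ (κ / 4) ≤ (⌊(p : ℝ) ^ (κ / 2)⌋₊ : ℕ) := by
      have h4 : (p : ℝ) ^ (κ / 2) = (p : ℝ) ^ (κ / 4) * (p : ℝ) ^ (κ / 4) := by
        rw [← Real.rpow_add hp0]
        congr 1
        ring
      have h5 := Nat.lt_floor_add_one ((p : ℝ) ^ (κ / 2))
      rw [h4] at h5 ⊢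
      nlinarith
    have hEq := heq p (by omega) hpp ι S x hx hsum _ (Nat.floor_le (by positivity))
    have hX1 : 1 ≤ ⌊(p : ℝ) ^ (κ / 2)⌋₊ := by
      have : (1 : ℝ) ≤ (⌊(p : ℝ) ^ (κ / 2)⌋₊ : ℕ) := by linarith
      exact_mod_cast this
    have hsp := spread_of_equi S x _ hX1 hEq τ hτ ((p : ℝ) ^ (κ / 4)) h3
    have h6 := hX₀ ((p : ℝ) ^ (κ / 4)) (by linarith) ι S _ hsp
    have h7 : (exceptions f S (fun i => (x i : ℤ)) (κ / 4 * η) ε p : ℝ) ≤ (exceptions f S (fun i => (x i : ℤ)) η ε ((p : ℝ) ^ (κ / 4)) : ℝ) := by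
      unfold exceptions
      apply Nat.cast_le.2
      apply card_le_card
      intro i hi
      rw [mem_filter] at hi ⊢
      obtain ⟨v, hv, hfv, hnd⟩ := hi.2
      exact ⟨hi.1, v, hv, hfv, fun hd => hnd (descends_mono hp1 (by linarith) hε hv hd)⟩
    refine h7.trans (h6.trans (le_of_eq ?_))
    rw [← Real.rpow_mul hp0.le]
    congr 2
    ring
  refine ⟨⟨η, δ, τ, hη, hδ, hτ, ?_, ?_⟩, ?_, ?_⟩
  · intro C hC
    obtain ⟨X₀, -, h⟩ := hcore C hC
    exact ⟨X₀, h⟩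
  · intro L hL
    obtain ⟨X₀, hX₀1, h⟩ := hcore (2 ^ L) (by positivity)
    obtain ⟨K₀, hK₀⟩ : ∃ K₀ : ℕ, X₀ ≤ (2 : ℝ) ^ K₀ := by
      obtain ⟨n, hn⟩ := pow_unbounded_of_one_lt X₀ (by norm_num : (1 : ℝ) < 2)
      exact ⟨n, hn.le⟩
    refine ⟨K₀, fun K hK W hW hWc => ?_⟩
    apply h
    · refine hK₀.trans (pow_le_pow_right₀ (by norm_num) ?_)
      exact hK.trans (Nat.le_mul_of_pos_left _ hL)
    · intro n hn a
      have hn' : n ≤ L * K := (pow_le_pow_iff_right₀ (by norm_num : (1 : ℝ) < 2)).1 hn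
      have h1 := Pool.Agent.K7.H67.EXC.spread_res L hL τ hτ hτ1 W hW hWc K n hn' a
      have h2 : (restricted L K W).filter (fun i : ℕ => (2 : ℤ) ^ n ∣ (i : ℤ) - a) =
          (Pool.Agent.K7.H67.EXC.res (2 ^ L) K W).filter (fun x : ℕ => (x : ℤ) ≡ a [ZMOD (2 : ℤ) ^ n]) := by
        apply filter_congr
        intro i _
        constructor
        · intro h4
          exact (Int.modEq_iff_dvd.2 h4).symm
        · intro h4
          exact (Int.modEq_iff_dvd.1 h4.symm)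
      rw [h2]
      exact h1
  · intro κ hκ
    obtain ⟨γ, hγ, p₁, hsup⟩ := Pool.Agent.K7.H67.BG.pw_sup κ hκ
    obtain ⟨θ, hθ⟩ : ∃ θ, θ = min (min γ κ) 1 := ⟨_, rfl⟩
    have hθ0 : 0 < θ := by rw [hθ]; positivity
    have hθ1 : θ ≤ 1 := by rw [hθ]; exact min_le_right _ _
    have hθγ : θ ≤ γ := by rw [hθ]; exact (min_le_left _ _).trans (min_le_left _ _)
    have hθκ : θ ≤ κ := by rw [hθ]; exact (min_le_left _ _).trans (min_le_right _ _)
    obtain ⟨p₂, hp₂⟩ := hprime θ hθ0 hθ1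
    refine ⟨θ / 4 * η, θ / 4 * δ, by positivity, by positivity, p₁ + p₂, fun p hp hpp => ⟨?_, ?_⟩⟩
    · intro ι S x hx hsum
      apply hp₂ p (by omega) hpp ι S x hx
      intro j hj1 hjp
      have h1 := hsum j hj1 hjp
      have h2 : ∑ i ∈ S, Pool.Agent.H807R2.Dav.ee ((j : ℝ) * ((x i : ℝ) / p)) =
          ∑ i ∈ S, Complex.exp (2 * Real.pi * Complex.I * ((j : ℂ) * x i / p)) := by
        refine sum_congr rfl fun i _ => ?_
        unfold Pool.Agent.H807R2.Dav.ee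
        congr 1
        push_cast
        ring
      rw [h2]
      refine h1.trans ?_
      apply mul_le_mul_of_nonneg_left _ (Nat.cast_nonneg _)
      exact Real.rpow_le_rpow_of_exponent_le (by exact_mod_cast hpp.one_lt.le) (by linarith)
    · intro b a u x hb hx hxu
      have : NeZero p := ⟨hpp.ne_zero⟩
      have h1 := hp₂ p (by omega) hpp ℕ (Icc 1 x) (fun m => (b * ((u ^ m : (ZMod p)ˣ) : ZMod p) + a).val) (fun i _ => ZMod.val_lt _) (by
        intro j hj1 hjp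
        refine (hsup p (by omega) hpp b a u x hb hx hxu j hj1 hjp).trans ?_
        apply mul_le_mul_of_nonneg_left _ (Nat.cast_nonneg _)
        exact Real.rpow_le_rpow_of_exponent_le (by exact_mod_cast hpp.one_lt.le) (by linarith))
      rw [Nat.card_Icc, Nat.add_sub_cancel] at h1
      exact h1
  · intro κ hκ
    obtain ⟨k₀, hk₀⟩ := Pool.Agent.K7.H67.BG.vec_sup κ hκ
    refine ⟨k₀, fun k hk => ?_⟩
    obtain ⟨γ, hγ, p₁, hsup⟩ := hk₀ k hk
    obtain ⟨θ, hθ⟩ : ∃ θ, θ = min γ 1 := ⟨_, rfl⟩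
    have hθ0 : 0 < θ := by rw [hθ]; positivity
    have hθ1 : θ ≤ 1 := by rw [hθ]; exact min_le_right _ _
    have hθγ : θ ≤ γ := by rw [hθ]; exact min_le_left _ _
    obtain ⟨p₂, hp₂⟩ := hprime θ hθ0 hθ1
    refine ⟨θ / 4 * η, θ / 4 * δ, by positivity, by positivity, p₁ + p₂, fun p hp hpp U h hU hh => ?_⟩
    have : NeZero p := ⟨hpp.ne_zero⟩
    exact hp₂ p (by omega) hpp (Fin k → ZMod p) (Fintype.piFinset U) (fun u => (∏ i, u i + ∑ i, h i u).val) (fun i _ => ZMod.val_lt _) (by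
        intro j hj1 hjp
        refine (hsup p (by omega) hpp U hU h hh j hj1 hjp).trans ?_
        apply mul_le_mul_of_nonneg_left _ (Nat.cast_nonneg _)
        exact Real.rpow_le_rpow_of_exponent_le (by exact_mod_cast hpp.one_lt.le) (by linarith))

end Pool.Agent.Results.MP_0a5adf_nt.SpreadFamilies
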